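import Pool.Agent.T2H90.AS.Main

set_option autoImplicit false

open Pool.Agent.Helper454.Kauf (Raz IsKnot Isotopic circle)
open Pool.Agent.Helper454.Wh (OWord OClosed forget)
open Pool.Agent.T2H90.AS

namespace Pool.Agent.Results.MP_7f6fde_gt.SpreadCounterexample

/-- There is a non-trivial knot `K` with `spP_a(K) = 8 > 7 = spF_a(K)`: its HOMFLYPT polynomial `P`
has a greater `a`-spread than its Kauffman polynomial `F`. -/
theorem result :
    ∃ (K : OWord) (P F : Raz), OClosed K ∧ IsKnot (forget K) ∧ ¬ Isotopic (forget K) circle ∧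
      IsHomflyPolynomialOf K P ∧ IsKauffmanPolynomialOf (forget K) F ∧
      IsASpread P 8 ∧ IsASpread F 7 :=
  ⟨K, P, F, oclosed_K, isKnot_KU, nontrivial_KU, isHomflyPolynomialOf_P, isKauffmanPolynomialOf_F,
    isASpread_P, isASpread_F⟩

end Pool.Agent.Results.MP_7f6fde_gt.SpreadCounterexample
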